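import Pool.Agent.H441R4.GB.Key

/-! The key lemma and the count. -/

set_option autoImplicit false

open Finset Filter

namespace Pool.Agent.H441R4.GB

open Pool.Agent.Results.MP_a78e8f_nt.IntegerResiduesAllLevels (primePiAP primePi maxErr T)

theorem key (ε : ℝ) (hε : 0 < ε) (hε1 : ε < 1) : ∃ x0 : ℕ, ∀ x : ℕ, x0 ≤ x → ∀ n : ℕ, n ≤ x →
    x < 2 * n →
    (∀ p q : ℕ, p.Prime → q.Prime → p < n → ¬ p ∣ n → q ∣ n - p → (q : ℝ) ≤ (x : ℝ) ^ (1 - ε)) →
    (x : ℝ) / Real.log x ^ (2 : ℝ) < T x ⌊(x : ℝ) ^ (1 - ε)⌋₊ n := by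
  obtain ⟨C1, hC1, hM⟩ := sum_vM_tot
  have e1 : ∀ᶠ X : ℝ in atTop, 8 * Real.log X ^ 6 ≤ X ^ (1 - ε) :=
    Pool.Agent.H398R2.BV.ev_log 8 6 (1 - ε) (by linarith)
  have e2 : ∀ᶠ X : ℝ in atTop, Real.log (Real.log X) ≤ (ε / 8) * Real.log X := by
    have h1 := (Real.isLittleO_log_id_atTop.bound (show (0:ℝ) < ε / 8 by positivity))
    have h2 := Real.tendsto_log_atTop.eventually h1
    have h3 := Real.tendsto_log_atTop.eventually (eventually_ge_atTop (1:ℝ))
    filter_upwards [h2, h3] with X h4 h5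
    have h6 : 0 ≤ Real.log (Real.log X) := Real.log_nonneg h5
    simp only [id] at h4
    rw [Real.norm_eq_abs, Real.norm_eq_abs, abs_of_nonneg h6,
      abs_of_nonneg (by linarith : (0:ℝ) ≤ Real.log X)] at h4
    exact h4
  have e3 : ∀ᶠ X : ℝ in atTop, 4 * (1 + C1) / ε + 100 / ε + 1 ≤ Real.log X :=
    Real.tendsto_log_atTop.eventually (eventually_ge_atTop _)
  have evN := tendsto_natCast_atTop_atTop (R := ℝ) |>.eventually
    ((e1.and (e2.and e3)).and (eventually_ge_atTop (3:ℝ)))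
  obtain ⟨x0, hx0⟩ := eventually_atTop.1 evN
  refine ⟨x0, fun x hx n hnx hxn hno => ?_⟩
  obtain ⟨⟨w1, w2, w3⟩, w4⟩ := hx0 x hx
  set L := Real.log x with hL
  have hx3 : 3 ≤ x := by exact_mod_cast w4
  have hX0 : (0:ℝ) < x := by linarith
  have h4e : 0 ≤ 4 * (1 + C1) / ε := by positivity
  have h100 : 0 < 100 / ε := by positivity
  have hL1 : 1 ≤ L := by linarith
  have hL0 : 0 < L := by linarith
  have hLa : 4 * (1 + C1) ≤ ε * L := by
    have h1 : 4 * (1 + C1) / ε ≤ L := by linarith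
    rw [div_le_iff₀ hε] at h1
    linarith
  have hLb : 100 ≤ ε * L := by
    have h1 : 100 / ε ≤ L := by linarith
    rw [div_le_iff₀ hε] at h1
    linarith
  have hx1 : (1:ℝ) ≤ x := by linarith
  have hpow : (x:ℝ) ^ (1 - ε) ≤ x := by
    calc (x:ℝ) ^ (1 - ε) ≤ (x:ℝ) ^ (1:ℝ) := Real.rpow_le_rpow_of_exponent_le hx1 (by linarith)
      _ = x := Real.rpow_one _
  have hpow0 : 0 ≤ (x:ℝ) ^ (1 - ε) := by positivity
  set Q := ⌊(x : ℝ) ^ (1 - ε)⌋₊ with hQ
  set S := ⌈L ^ 2⌉₊ with hS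
  have hL2 : 1 ≤ L ^ 2 := one_le_pow₀ hL1
  have hS1 : 1 ≤ S := Nat.one_le_ceil_iff.2 (by linarith)
  have hSL : L ^ 2 ≤ S := Nat.le_ceil _
  have hSL2 : (S:ℝ) ≤ 2 * L ^ 2 := by
    have := (Nat.ceil_lt_add_one (show 0 ≤ L ^ 2 by positivity)).le
    linarith
  have hSQ : S ^ 3 ≤ Q := by
    apply Nat.le_floor
    push_cast
    calc (S:ℝ) ^ 3 ≤ (2 * L ^ 2) ^ 3 := by gcongr
      _ = 8 * L ^ 6 := by ring
      _ ≤ _ := w1
  have hQx : Q ≤ x := by
    calc Q ≤ ⌊(x:ℝ)⌋₊ := Nat.floor_le_floor hpow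
      _ = x := Nat.floor_natCast x
  have hL6 : L ^ 2 ≤ L ^ 6 := pow_le_pow_right₀ hL1 (by norm_num)
  have hL36 : L ^ 3 ≤ L ^ 6 := pow_le_pow_right₀ hL1 (by norm_num)
  have hSn : S ≤ n := by
    have h1 : (S:ℝ) ≤ x / 4 := by
      have : 8 * L ^ 6 ≤ x := w1.trans hpow
      linarith
    have h2 : (x:ℝ) < 2 * n := by exact_mod_cast hxn
    have h3 : (S:ℝ) ≤ n := by linarith
    exact_mod_cast h3
  have hn2 : 2 ≤ n := by omega
  have hnr : (n:ℝ) ≤ x := by exact_mod_cast hnx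
  have hxnr : (x:ℝ) < 2 * n := by exact_mod_cast hxn
  have hn0 : (0:ℝ) < n := by linarith
  have hlogn : Real.log n ≤ L := Real.log_le_log hn0 hnr
  have hlogn2 : L - 1 ≤ Real.log n := by
    have h1 : L ≤ Real.log (2 * n) := Real.log_le_log hX0 hxnr.le
    rw [Real.log_mul (by norm_num) hn0.ne'] at h1
    have := Real.log_two_lt_d9
    linarith
  set z : ℝ := n / L ^ 2 with hz
  have hz0 : 0 < z := by positivity
  have hlogz : Real.log z = Real.log n - 2 * Real.log L := by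
    rw [hz, Real.log_div hn0.ne' (by positivity), Real.log_pow]
    norm_num
  have hloglog : 0 ≤ Real.log L := Real.log_nonneg hL1
  have hcard := card_GG n S hn2 hS1 hSn z hz0.le
  have hsum := sum_GG n S Q x z hnx hSQ hQx (fun p q h1 h2 h3 h4 h5 => by
    apply Nat.le_floor
    exact hno p q h1 h2 h3 h4 h5)
  have hQ1 : 1 ≤ Q := le_trans (Nat.one_le_pow _ _ hS1) hSQ
  have hMQ := hM Q hQ1
  have hlogQ : Real.log Q ≤ (1 - ε) * L := by
    have h1 : (Q:ℝ) ≤ (x:ℝ) ^ (1 - ε) := Nat.floor_le hpow0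
    have h2 : (0:ℝ) < Q := by exact_mod_cast hQ1
    have h3 := Real.log_le_log h2 h1
    rwa [Real.log_rpow hX0] at h3
  set P : ℝ := (primePi n : ℝ) with hP
  have hP0 : 0 ≤ P := Nat.cast_nonneg _
  set R : ℝ := 2 * L + 1 + 2 * x / L ^ 2 with hR
  have hGR : P - R ≤ ((GG n S z).card : ℝ) := by
    have h1 : z ≤ x / L ^ 2 := by rw [hz]; gcongr
    have h2 : (n:ℝ) / S ≤ x / L ^ 2 := by
      apply div_le_div₀ hX0.le hnr (by positivity) hSL
    have h3 : 2 * (x:ℝ) / L ^ 2 = x / L ^ 2 + x / L ^ 2 := by ring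
    rw [hR, h3]
    linarith
  have hlow : ((GG n S z).card : ℝ) * Real.log z ≤ ∑ p ∈ GG n S z, Real.log ((n - p : ℕ) : ℝ) := by
    rw [← nsmul_eq_mul, ← sum_const]
    apply sum_le_sum
    intro p hp
    rw [mem_GG] at hp
    exact Real.log_le_log hz0 hp.2.2.2.2.1
  have hW1 : L - 1 - 2 * Real.log L ≤ Real.log z := by rw [hlogz]; linarith
  have hW0 : 0 ≤ Real.log z := by
    have : ε * L ≤ L := by nlinarith
    have : (ε / 8) * L ≤ L / 8 := by nlinarith
    linarith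
  have hWL : Real.log z ≤ L := by rw [hlogz]; linarith
  have hR0 : 0 ≤ R := by positivity
  have h1 : (P - R) * Real.log z ≤ P * ((1 - ε) * L + C1) + L * T x Q n := by
    calc (P - R) * Real.log z ≤ ((GG n S z).card : ℝ) * Real.log z := by gcongr
      _ ≤ _ := hlow
      _ ≤ _ := hsum
      _ ≤ P * ((1 - ε) * L + C1) + L * T x Q n := by
          gcongr
          linarith
  have h2 : R * Real.log z ≤ R * L := by gcongr
  have h3 : P * (ε * L / 2) ≤ P * (Real.log z - (1 - ε) * L - C1) := by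
    apply mul_le_mul_of_nonneg_left _ hP0
    nlinarith
  have h4 : P * (ε * L / 2) ≤ R * L + L * T x Q n := by nlinarith
  have h5 : (x:ℝ) / (10 * L) ≤ P := by
    have hL100 : 100 ≤ L := by nlinarith
    have hS3 : (3:ℝ) ≤ S := by nlinarith
    have hS3' : 3 ≤ S := by exact_mod_cast hS3
    have h6 := Pool.Agent.H441R4.EH.pin_ge n (by omega)
    have h7 : Pool.Agent.H441R4.EH.pin n = P := rfl
    rw [h7] at h6
    rw [div_le_iff₀ (by positivity)]
    have h8 : P * Real.log n ≤ P * L := by gcongr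
    nlinarith
  have h6 : (x:ℝ) * ε / 20 ≤ P * (ε * L / 2) := by
    calc (x:ℝ) * ε / 20 = (x:ℝ) / (10 * L) * (ε * L / 2) := by field_simp; norm_num
      _ ≤ _ := by gcongr
  have h7 : R * L ≤ 3 * x / L := by
    rw [hR, le_div_iff₀ hL0]
    have h8 : (2 * L + 1 + 2 * (x:ℝ) / L ^ 2) * L * L = 2 * L ^ 3 + L ^ 2 + 2 * x := by
      field_simp
    rw [h8]
    have h9 : 8 * L ^ 6 ≤ x := w1.trans hpow
    linarith
  have h8 : 4 * (x:ℝ) / L < x * ε / 20 := by
    rw [div_lt_div_iff₀ hL0 (by norm_num)]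
    nlinarith
  have h9 : (x:ℝ) / L < L * T x Q n := by
    have : 4 * (x:ℝ) / L = 3 * x / L + x / L := by ring
    linarith
  rw [show (2:ℝ) = ((2:ℕ):ℝ) by norm_num, Real.rpow_natCast, div_lt_iff₀ (by positivity)]
  rw [div_lt_iff₀ hL0] at h9
  nlinarith

open Classical in
/-- the integers `n ∈ (N, 2N]` that are not of the form `p + m q` with distinct primes `p`, `q` and
`1 ≤ m ≤ n^ε` -/
noncomputable def exc (ε : ℝ) (N : ℕ) : Finset ℕ :=
  (Ioc N (2 * N)).filter (fun n => ¬ ∃ p q m : ℕ, p.Prime ∧ q.Prime ∧ p ≠ q ∧ 1 ≤ m ∧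
    (m : ℝ) ≤ (n : ℝ) ^ ε ∧ n = p + m * q)

theorem count (ε : ℝ) (hε : 0 < ε) (hε1 : ε ≤ 1 / 2) : ∃ B C : ℝ, ∀ N : ℕ, 3 ≤ N →
    ((exc ε N).card : ℝ) ≤ C * (N : ℝ) ^ (1 - 2 * ε) * Real.log N ^ B := by
  classical
  obtain ⟨x0, hkey⟩ := key ε hε (by linarith)
  obtain ⟨-, B0, C0, hcnt⟩ :=
    Pool.Agent.Results.MP_a78e8f_nt.IntegerResiduesAllLevels.result ε hε 1 2
  set B := max B0 0 with hB
  set C := max C0 0 with hC
  have hB0 : 0 ≤ B := le_max_right _ _
  have hC0 : 0 ≤ C := le_max_right _ _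
  refine ⟨B, C * 2 * 2 ^ B + x0, fun N hN => ?_⟩
  have hNr : (3:ℝ) ≤ N := by exact_mod_cast hN
  have hlogN : 1 ≤ Real.log N := Pool.Agent.H441R3.BV.one_le_log hN
  have hlogB : 1 ≤ Real.log N ^ B := Real.one_le_rpow hlogN hB0
  have hNe : 1 ≤ (N:ℝ) ^ (1 - 2 * ε) := Real.one_le_rpow (by linarith) (by linarith)
  have hprod : 1 ≤ (N:ℝ) ^ (1 - 2 * ε) * Real.log N ^ B := by nlinarith
  have hprod0 : 0 ≤ (N:ℝ) ^ (1 - 2 * ε) * Real.log N ^ B := by linarith
  rcases Nat.lt_or_ge (2 * N) x0 with hlt | hge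
  · have h1 : ((exc ε N).card : ℝ) ≤ x0 := by
      have h2 : (exc ε N).card ≤ N := by
        unfold exc
        refine (card_filter_le _ _).trans ?_
        rw [Nat.card_Ioc]; omega
      have h3 : (exc ε N).card ≤ x0 := by omega
      exact_mod_cast h3
    have h4 : 0 ≤ C * 2 * 2 ^ B := by positivity
    calc ((exc ε N).card : ℝ) ≤ x0 * 1 := by rw [mul_one]; exact h1
      _ ≤ (C * 2 * 2 ^ B + x0) * ((N:ℝ) ^ (1 - 2 * ε) * Real.log N ^ B) := by
          gcongr
          linarith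
      _ = _ := by ring
  · set x := 2 * N with hx
    have hxr : (x:ℝ) = 2 * N := by rw [hx]; push_cast; ring
    have hx0 : (0:ℝ) < x := by rw [hxr]; linarith
    set Q := ⌊(x : ℝ) ^ (1 - ε)⌋₊ with hQ
    have hQle : (Q:ℝ) ≤ (x:ℝ) ^ (1 - ε) := Nat.floor_le (by positivity)
    have h1 := hcnt x (by omega) Q hQle
    have h2 : (exc ε N).card ≤ ((Icc (-(x : ℤ) ^ 1) ((x : ℤ) ^ 1)).filter
        (fun a : ℤ => x / Real.log x ^ (2:ℝ) < T x Q a)).card := by
      apply card_le_card_of_injOn (fun n : ℕ => (n : ℤ))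
      · intro n hn
        rw [mem_coe] at hn
        unfold exc at hn
        rw [mem_filter, mem_Ioc] at hn
        obtain ⟨⟨hn1, hn2⟩, hn3⟩ := hn
        rw [mem_coe, mem_filter, mem_Icc]
        refine ⟨⟨?_, ?_⟩, ?_⟩
        · show -(x : ℤ) ^ 1 ≤ (n : ℤ)
          rw [pow_one]; omega
        · show (n : ℤ) ≤ (x : ℤ) ^ 1
          rw [pow_one]; omega
        · apply hkey x hge n (by omega) (by omega)
          intro p q hp hq hpn hpd hqd
          by_contra hcon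
          rw [not_le] at hcon
          apply hn3
          obtain ⟨m, hm⟩ := hqd
          have hm1 : 1 ≤ m := by
            rcases Nat.eq_zero_or_pos m with h | h
            · rw [h] at hm; omega
            · exact h
          refine ⟨p, q, m, hp, hq, ?_, hm1, ?_, ?_⟩
          · rintro rfl
            apply hpd
            have : p ∣ n - p := ⟨m, hm⟩
            exact (Nat.dvd_sub_iff_left hpn.le (dvd_refl p)).1 this
          · have hnr : (0:ℝ) < n := by exact_mod_cast (by omega : 0 < n)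
            have hnx : (n:ℝ) ≤ x := by exact_mod_cast hn2
            have h3 : (n:ℝ) ^ (1 - ε) < q := lt_of_le_of_lt
              (Real.rpow_le_rpow hnr.le hnx (by linarith)) hcon
            have h4 : (m:ℝ) * q ≤ n := by
              have : m * q ≤ n := by
                rw [Nat.mul_comm, ← hm]; exact Nat.sub_le _ _
              exact_mod_cast this
            have h5 : (0:ℝ) < (n:ℝ) ^ (1 - ε) := Real.rpow_pos_of_pos hnr _
            have h6 : (m:ℝ) * (n:ℝ) ^ (1 - ε) ≤ n := by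
              refine le_trans ?_ h4
              gcongr
            have h7 : (n:ℝ) = (n:ℝ) ^ ε * (n:ℝ) ^ (1 - ε) := by
              rw [← Real.rpow_add hnr]
              norm_num
            have h8 : (m:ℝ) * (n:ℝ) ^ (1 - ε) ≤ (n:ℝ) ^ ε * (n:ℝ) ^ (1 - ε) := by
              rw [← h7]; exact h6
            exact le_of_mul_le_mul_right h8 h5
          · rw [Nat.mul_comm, ← hm]; omega
      · intro a _ b _ hab
        have hab' : (a : ℤ) = (b : ℤ) := hab
        exact_mod_cast hab'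
    have h3 : ((exc ε N).card : ℝ) ≤ C0 * ((Q : ℝ) ^ 2 / x) * Real.log x ^ B0 := by
      refine le_trans ?_ h1
      exact_mod_cast h2
    have hlogx : 1 ≤ Real.log x := Pool.Agent.H441R3.BV.one_le_log (by omega)
    have hlogx2 : Real.log x ≤ 2 * Real.log N := by
      rw [hxr, Real.log_mul (by norm_num) (by linarith)]
      have : Real.log 2 ≤ Real.log N := Real.log_le_log (by norm_num) (by linarith)
      linarith
    have h4 : (Q:ℝ) ^ 2 / x ≤ 2 * (N:ℝ) ^ (1 - 2 * ε) := by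
      calc (Q:ℝ) ^ 2 / x ≤ ((x:ℝ) ^ (1 - ε)) ^ 2 / x := by gcongr
        _ = (x:ℝ) ^ (1 - 2 * ε) := by
            rw [← Real.rpow_natCast, ← Real.rpow_mul hx0.le, div_eq_mul_inv, ← Real.rpow_neg_one,
              ← Real.rpow_add hx0]
            congr 1
            push_cast
            ring
        _ = (2:ℝ) ^ (1 - 2 * ε) * (N:ℝ) ^ (1 - 2 * ε) := by
            rw [hxr, Real.mul_rpow (by norm_num) (by linarith)]
        _ ≤ 2 * (N:ℝ) ^ (1 - 2 * ε) := by
            apply mul_le_mul_of_nonneg_right _ (by positivity)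
            calc (2:ℝ) ^ (1 - 2 * ε) ≤ (2:ℝ) ^ (1:ℝ) :=
                  Real.rpow_le_rpow_of_exponent_le (by norm_num) (by linarith)
              _ = 2 := Real.rpow_one _
    have h5 : Real.log x ^ B0 ≤ 2 ^ B * Real.log N ^ B := by
      calc Real.log x ^ B0 ≤ Real.log x ^ B :=
            Real.rpow_le_rpow_of_exponent_le hlogx (le_max_left _ _)
        _ ≤ (2 * Real.log N) ^ B := Real.rpow_le_rpow (by linarith) hlogx2 hB0
        _ = 2 ^ B * Real.log N ^ B := Real.mul_rpow (by norm_num) (by linarith)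
    calc ((exc ε N).card : ℝ) ≤ C0 * ((Q : ℝ) ^ 2 / x) * Real.log x ^ B0 := h3
      _ ≤ C * (2 * (N:ℝ) ^ (1 - 2 * ε)) * (2 ^ B * Real.log N ^ B) := by
          have h6 : C0 ≤ C := le_max_left _ _
          gcongr
      _ = C * 2 * 2 ^ B * ((N:ℝ) ^ (1 - 2 * ε) * Real.log N ^ B) := by ring
      _ ≤ (C * 2 * 2 ^ B + x0) * ((N:ℝ) ^ (1 - 2 * ε) * Real.log N ^ B) := by
          apply mul_le_mul_of_nonneg_right _ hprod0
          have : (0:ℝ) ≤ x0 := Nat.cast_nonneg _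
          linarith
      _ = _ := by ring

end Pool.Agent.H441R4.GB
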