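import Pool.Agent.H441R4.GB.Mert
import Pool.Agent.H441R4.EH.Least
import Pool.Agent.Results.MP_a78e8f_nt.IntegerResiduesAllLevels

/-! If no `n - p` has a prime factor larger than `Q = x^(1-ε)`, then the discrepancy is large. -/

set_option autoImplicit false

open Finset

namespace Pool.Agent.H441R4.GB

open Pool.Agent.Results.MP_a78e8f_nt.IntegerResiduesAllLevels (primePiAP primePi maxErr T)

/-- the good primes -/
noncomputable def GG (n S : ℕ) (z : ℝ) : Finset ℕ := by
  classical
  exact (Icc 1 n).filter (fun p => p.Prime ∧ p < n ∧ ¬ p ∣ n ∧ z ≤ ((n - p : ℕ) : ℝ) ∧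
    ∀ s ∈ Ioc S n, ¬ s ^ 2 ∣ n - p)

lemma mem_GG {n S : ℕ} {z : ℝ} {p : ℕ} : p ∈ GG n S z ↔
    (1 ≤ p ∧ p ≤ n) ∧ p.Prime ∧ p < n ∧ ¬ p ∣ n ∧ z ≤ ((n - p : ℕ) : ℝ) ∧
      ∀ s ∈ Ioc S n, ¬ s ^ 2 ∣ n - p := by
  classical
  unfold GG
  rw [mem_filter, mem_Icc]

/-- almost all primes are good -/
lemma card_GG (n S : ℕ) (hn : 2 ≤ n) (hS : 1 ≤ S) (hSn : S ≤ n) (z : ℝ) (hz : 0 ≤ z) :
    (primePi n : ℝ) ≤ ((GG n S z).card : ℝ) + 2 * Real.log n + (z + 1) + n / S := by
  classical
  have hn0 : 0 < n := by omega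
  set A1 := n.primeFactors with hA1
  set A2 := (Icc 1 n).filter (fun p => ((n - p : ℕ) : ℝ) < z) with hA2
  set A3 := (Icc 1 n).filter (fun p => p < n ∧ ∃ s ∈ Ioc S n, s ^ 2 ∣ n - p) with hA3
  have hsub : (Icc 1 n).filter (fun p : ℕ => p.Prime) ⊆ ((GG n S z ∪ A1) ∪ A2) ∪ A3 := by
    intro p hp
    rw [mem_filter, mem_Icc] at hp
    by_cases h1 : p ∣ n
    · simp only [mem_union]
      left; left; right
      rw [hA1, Nat.mem_primeFactors]
      exact ⟨hp.2, h1, by omega⟩
    · have hlt : p < n := by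
        rcases Nat.lt_or_ge p n with h | h
        · exact h
        · exact absurd (by rw [le_antisymm hp.1.2 h]) h1
      by_cases h2 : ((n - p : ℕ) : ℝ) < z
      · simp only [mem_union]
        left; right
        rw [hA2, mem_filter, mem_Icc]
        exact ⟨hp.1, h2⟩
      · by_cases h3 : ∃ s ∈ Ioc S n, s ^ 2 ∣ n - p
        · simp only [mem_union]
          right
          rw [hA3, mem_filter, mem_Icc]
          exact ⟨hp.1, hlt, h3⟩
        · simp only [mem_union]
          left; left; left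
          rw [mem_GG]
          push Not at h3
          exact ⟨hp.1, hp.2, hlt, h1, not_lt.1 h2, h3⟩
  have h1 : (primePi n : ℝ) ≤ ((GG n S z).card : ℝ) + A1.card + A2.card + A3.card := by
    have h2 : primePi n ≤ (GG n S z).card + A1.card + A2.card + A3.card := by
      unfold primePi
      refine (card_le_card hsub).trans ?_
      refine (card_union_le _ _).trans ?_
      gcongr
      refine (card_union_le _ _).trans ?_
      gcongr
      exact card_union_le _ _
    exact_mod_cast h2
  have c1 : (A1.card : ℝ) ≤ 2 * Real.log n := by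
    have h3 : 2 ^ A1.card ≤ n := by
      calc 2 ^ A1.card ≤ ∏ p ∈ n.primeFactors, p :=
            pow_card_le_prod _ _ _ (fun p hp => (Nat.prime_of_mem_primeFactors hp).two_le)
        _ ≤ n := Nat.le_of_dvd hn0 (Nat.prod_primeFactors_dvd n)
    have h5 : ((2 : ℝ) ^ A1.card) ≤ n := by exact_mod_cast h3
    have h6 := Real.log_le_log (by positivity) h5
    rw [Real.log_pow] at h6
    have h7 := Real.log_two_gt_d9
    have h8 : (0 : ℝ) ≤ A1.card := by positivity
    nlinarith
  have c2 : (A2.card : ℝ) ≤ z + 1 := by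
    have h3 : A2.card ≤ (range ⌈z⌉₊).card := by
      apply card_le_card_of_injOn (fun p => n - p)
      · intro p hp
        rw [hA2, mem_coe, mem_filter, mem_Icc] at hp
        rw [mem_coe, mem_range]
        exact Nat.lt_ceil.2 hp.2
      · intro p hp q hq hpq
        rw [hA2, mem_coe, mem_filter, mem_Icc] at hp hq
        simp only at hpq
        omega
    rw [card_range] at h3
    have h4 := (Nat.ceil_lt_add_one hz).le
    have h5 : (A2.card : ℝ) ≤ (⌈z⌉₊ : ℝ) := by exact_mod_cast h3
    linarith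
  have c3 : (A3.card : ℝ) ≤ n / S := by
    have hSr : (0 : ℝ) < S := by exact_mod_cast hS
    have h3 : A3.card ≤ ((Ioc S n).biUnion
        (fun s => (Icc 1 n).filter (fun m => s ^ 2 ∣ m))).card := by
      apply card_le_card_of_injOn (fun p => n - p)
      · intro p hp
        rw [hA3, mem_coe, mem_filter, mem_Icc] at hp
        obtain ⟨h4, h5, s, hs, hs2⟩ := hp
        rw [mem_coe, mem_biUnion]
        refine ⟨s, hs, ?_⟩
        simp only [mem_filter, mem_Icc]
        exact ⟨⟨by omega, by omega⟩, hs2⟩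
      · intro p hp q hq hpq
        rw [hA3, mem_coe, mem_filter, mem_Icc] at hp hq
        simp only at hpq
        omega
    have h4 : (A3.card : ℝ) ≤ ∑ s ∈ Ioc S n, (n : ℝ) * ((s : ℝ) ^ 2)⁻¹ := by
      have h5 : (A3.card : ℝ) ≤ ∑ s ∈ Ioc S n,
          (((Icc 1 n).filter (fun m => s ^ 2 ∣ m)).card : ℝ) := by
        exact_mod_cast h3.trans card_biUnion_le
      refine h5.trans (sum_le_sum fun s hs => ?_)
      rw [mem_Ioc] at hs
      have hs0 : (0 : ℝ) < s := by exact_mod_cast (by omega : 0 < s)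
      have h6 : ((Icc 1 n).filter (fun m => s ^ 2 ∣ m)).card = n / s ^ 2 := by
        have := Nat.card_multiples n (s ^ 2)
        rw [← Nat.Ioc_filter_dvd_card_eq_div n (s ^ 2)]
        congr 1
      rw [h6]
      have h7 : ((n / s ^ 2 : ℕ) : ℝ) ≤ (n : ℝ) / ((s ^ 2 : ℕ) : ℝ) := Nat.cast_div_le
      push_cast at h7
      rw [← div_eq_mul_inv]
      exact h7
    refine h4.trans ?_
    rw [← mul_sum]
    have h5 := sum_Ioc_inv_sq_le_sub (α := ℝ) (k := S) (n := n) (by omega) hSn
    have h6 : (0 : ℝ) ≤ (n : ℝ)⁻¹ := by positivity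
    calc (n : ℝ) * ∑ i ∈ Ioc S n, ((i : ℝ) ^ 2)⁻¹ ≤ n * (S : ℝ)⁻¹ := by
          apply mul_le_mul_of_nonneg_left _ (Nat.cast_nonneg n)
          linarith
      _ = n / S := by rw [div_eq_mul_inv]
  linarith

/-- the divisor sum over the good primes -/
lemma sum_GG (n S Q x : ℕ) (z : ℝ) (hnx : n ≤ x) (hSQ : S ^ 3 ≤ Q) (hQx : Q ≤ x)
    (hno : ∀ p q : ℕ, p.Prime → q.Prime → p < n → ¬ p ∣ n → q ∣ n - p → q ≤ Q) :
    ∑ p ∈ GG n S z, Real.log ((n - p : ℕ) : ℝ) ≤
      (primePi n : ℝ) * ∑ d ∈ Icc 1 Q, ArithmeticFunction.vonMangoldt d / (Nat.totient d : ℝ) +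
        Real.log x * T x Q n := by
  classical
  set F := (Icc 1 Q).filter (fun d : ℕ => Int.gcd n d = 1) with hF
  have h1 : ∀ p ∈ GG n S z, Real.log ((n - p : ℕ) : ℝ) ≤
      ∑ d ∈ F, if d ∣ n - p then ArithmeticFunction.vonMangoldt d else 0 := by
    intro p hp
    rw [mem_GG] at hp
    obtain ⟨hp1, hpp, hpn, hpd, _, hsq⟩ := hp
    rw [← ArithmeticFunction.vonMangoldt_sum, ← sum_filter]
    have h2 : ∑ d ∈ (n - p).divisors, ArithmeticFunction.vonMangoldt d =
        ∑ d ∈ (n - p).divisors.filter (fun d => ArithmeticFunction.vonMangoldt d ≠ 0),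
          ArithmeticFunction.vonMangoldt d := by
      rw [sum_filter_ne_zero]
    rw [h2]
    apply sum_le_sum_of_subset_of_nonneg
    · intro d hd
      rw [mem_filter, Nat.mem_divisors] at hd
      obtain ⟨⟨hd1, hd2⟩, hd3⟩ := hd
      have hpw := ArithmeticFunction.vonMangoldt_ne_zero_iff.1 hd3
      rw [isPrimePow_nat_iff] at hpw
      obtain ⟨r, k, hr, hk, hrk⟩ := hpw
      have hrd : r ∣ n - p := (dvd_pow_self r hk.ne').trans (hrk ▸ hd1)
      rw [mem_filter, hF, mem_filter, mem_Icc]
      refine ⟨⟨⟨?_, ?_⟩, ?_⟩, hd1⟩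
      · exact Nat.pos_of_dvd_of_pos hd1 (by omega)
      · rcases Nat.lt_or_ge k 2 with h3 | h3
        · have : k = 1 := by omega
          rw [this, pow_one] at hrk
          rw [← hrk]
          exact hno p r hpp hr hpn hpd hrd
        · set j := k / 2 with hj
          have hj1 : 1 ≤ j := by omega
          have h4 : (r ^ j) ^ 2 ∣ n - p := by
            rw [← pow_mul]
            exact (pow_dvd_pow r (by omega)).trans (hrk ▸ hd1)
          have h5 : r ^ j ≤ S := by
            by_contra hcon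
            have h6 : r ^ j ≤ n := by
              have h7 : (r ^ j) ^ 2 ≤ n - p := Nat.le_of_dvd (by omega) h4
              have h8 : r ^ j ≤ (r ^ j) ^ 2 := Nat.le_self_pow (by norm_num) _
              omega
            exact hsq (r ^ j) (by rw [mem_Ioc]; omega) h4
          rw [← hrk]
          calc r ^ k ≤ r ^ (j * 3) := Nat.pow_le_pow_right hr.pos (by omega)
            _ = (r ^ j) ^ 3 := by rw [pow_mul]
            _ ≤ S ^ 3 := Nat.pow_le_pow_left h5 3
            _ ≤ Q := hSQ
      · have hcop : Nat.Coprime n d := by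
          rw [← hrk]
          apply Nat.Coprime.pow_right
          rw [Nat.coprime_comm, Nat.Prime.coprime_iff_not_dvd hr]
          intro hrn
          have h3 : r ∣ p := by
            have := (Nat.dvd_sub_iff_right hpn.le hrn).1 hrd
            exact this
          have h4 : r = p := (Nat.prime_dvd_prime_iff_eq hr hpp).1 h3
          exact hpd (h4 ▸ hrn)
        have : Int.gcd (n : ℤ) (d : ℤ) = Nat.gcd n d := Int.gcd_natCast_natCast n d
        rw [this]
        exact hcop
    · intro d _ _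
      exact ArithmeticFunction.vonMangoldt_nonneg
  refine (sum_le_sum h1).trans ?_
  rw [sum_comm]
  have h2 : ∀ d ∈ F, ∑ p ∈ GG n S z, (if d ∣ n - p then ArithmeticFunction.vonMangoldt d else 0) ≤
      (primePi n : ℝ) * (ArithmeticFunction.vonMangoldt d / (Nat.totient d : ℝ)) +
        Real.log x * maxErr x d n := by
    intro d hd
    rw [hF, mem_filter, mem_Icc] at hd
    rw [← sum_filter, sum_const, nsmul_eq_mul]
    have h3 : ((GG n S z).filter (fun p => d ∣ n - p)).card ≤ primePiAP n d n := by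
      unfold primePiAP
      apply card_le_card
      intro p hp
      rw [mem_filter, mem_GG] at hp
      rw [mem_filter, mem_Icc]
      refine ⟨hp.1.1, hp.1.2.1, ?_⟩
      have h4 : ((n - p : ℕ) : ℤ) = (n : ℤ) - p := by
        rw [Nat.cast_sub hp.1.1.2]
      rw [Int.modEq_iff_dvd, ← h4]
      exact_mod_cast hp.2
    have h4 : (primePiAP n d n : ℝ) ≤ (primePi n : ℝ) / (Nat.totient d : ℝ) + maxErr x d n := by
      have h5 : |(primePiAP n d n : ℝ) - (primePi n : ℝ) / (Nat.totient d : ℝ)| ≤ maxErr x d n :=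
        le_sup' (f := fun y => |(primePiAP y d n : ℝ) - (primePi y : ℝ) / (Nat.totient d : ℝ)|)
          (mem_range.2 (Nat.lt_succ_iff.2 hnx))
      have := (abs_le.1 h5).2
      linarith
    have h5 : (0 : ℝ) ≤ ArithmeticFunction.vonMangoldt d := ArithmeticFunction.vonMangoldt_nonneg
    have h6 : ArithmeticFunction.vonMangoldt d ≤ Real.log x := by
      refine ArithmeticFunction.vonMangoldt_le_log.trans ?_
      apply Real.log_le_log
      · exact_mod_cast hd.1.1
      · exact_mod_cast hd.1.2.trans hQx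
    have h7 : 0 ≤ maxErr x d n := by
      refine le_trans (abs_nonneg _) (le_sup' (f := fun y => |(primePiAP y d n : ℝ) -
        (primePi y : ℝ) / (Nat.totient d : ℝ)|) (mem_range.2 (Nat.lt_succ_iff.2 hnx)))
    calc (((GG n S z).filter (fun p => d ∣ n - p)).card : ℝ) * ArithmeticFunction.vonMangoldt d ≤
          ((primePi n : ℝ) / (Nat.totient d : ℝ) + maxErr x d n) *
            ArithmeticFunction.vonMangoldt d := by
          apply mul_le_mul_of_nonneg_right _ h5
          refine le_trans ?_ h4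
          exact_mod_cast h3
      _ = (primePi n : ℝ) * (ArithmeticFunction.vonMangoldt d / (Nat.totient d : ℝ)) +
            ArithmeticFunction.vonMangoldt d * maxErr x d n := by ring
      _ ≤ _ := by gcongr
  refine (sum_le_sum h2).trans ?_
  rw [sum_add_distrib, ← mul_sum, ← mul_sum]
  have h3 : ∑ d ∈ F, ArithmeticFunction.vonMangoldt d / (Nat.totient d : ℝ) ≤
      ∑ d ∈ Icc 1 Q, ArithmeticFunction.vonMangoldt d / (Nat.totient d : ℝ) :=
    sum_le_sum_of_subset_of_nonneg (filter_subset _ _) fun d _ _ =>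
      div_nonneg ArithmeticFunction.vonMangoldt_nonneg (Nat.cast_nonneg _)
  have h4 : ∑ d ∈ F, maxErr x d n = T x Q n := rfl
  rw [h4]
  gcongr

end Pool.Agent.H441R4.GB
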