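import Pool.Agent.Helper923.HMertens

/-! The sum of `Λ(d) / φ(d)`. -/

set_option autoImplicit false

open Finset

namespace Pool.Agent.H441R4.GB

open Pool.Agent.Helper923.HMertens (PP)

lemma vM_pow (p k : ℕ) (hp : p.Prime) (hk : 1 ≤ k) :
    ArithmeticFunction.vonMangoldt (p ^ k) / (Nat.totient (p ^ k) : ℝ) =
      Real.log p / ((p : ℝ) - 1) * (1 / (p : ℝ)) ^ (k - 1) := by
  have h2 : (2 : ℝ) ≤ p := by exact_mod_cast hp.two_le
  rw [ArithmeticFunction.vonMangoldt_apply_pow (by omega), ArithmeticFunction.vonMangoldt_apply_prime hp,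
    Nat.totient_prime_pow hp (by omega)]
  push_cast [Nat.cast_sub hp.one_le]
  have h3 : (p : ℝ) - 1 ≠ 0 := by linarith
  have h4 : (p : ℝ) ≠ 0 := by linarith
  rw [one_div, inv_pow]
  field_simp

lemma geom_le (r : ℝ) (h0 : 0 ≤ r) (h1 : r < 1) (K : ℕ) :
    ∑ k ∈ Icc 1 K, r ^ (k - 1) ≤ 1 / (1 - r) := by
  have h2 : ∑ k ∈ Icc 1 K, r ^ (k - 1) = ∑ k ∈ range K, r ^ k := by
    rw [Finset.sum_bij (fun k _ => k - 1)]
    · intro a ha; rw [mem_Icc] at ha; rw [mem_range]; omega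
    · intro a ha b hb hab; rw [mem_Icc] at ha hb; omega
    · intro b hb
      rw [mem_range] at hb
      exact ⟨b + 1, by rw [mem_Icc]; omega, by simp⟩
    · intro a _; rfl
  rw [h2]
  have h3 : (∑ k ∈ range K, r ^ k) * (1 - r) ≤ 1 := by
    have := geom_sum_mul_neg r K
    rw [this]
    have : 0 ≤ r ^ K := pow_nonneg h0 K
    linarith
  rw [le_div_iff₀ (by linarith)]
  exact h3

theorem sum_vM_tot : ∃ C : ℝ, 0 ≤ C ∧ ∀ Q : ℕ, 1 ≤ Q →
    ∑ d ∈ Icc 1 Q, ArithmeticFunction.vonMangoldt d / (Nat.totient d : ℝ) ≤ Real.log Q + C := by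
  obtain ⟨C1, hC1⟩ := Pool.Agent.Helper923.HMertens.mertens_log
  obtain ⟨C2, hC20, hC2⟩ := Pool.Agent.Helper923.HMertens.sum_small_bound
  refine ⟨max C1 0 + 3 * C2, by positivity, fun Q hQ => ?_⟩
  set f : ℕ → ℝ := fun d => ArithmeticFunction.vonMangoldt d / (Nat.totient d : ℝ) with hf
  have hf0 : ∀ d, 0 ≤ f d := fun d =>
    div_nonneg ArithmeticFunction.vonMangoldt_nonneg (Nat.cast_nonneg _)
  have e1 : ∑ d ∈ Icc 1 Q, f d = ∑ d ∈ Ioc 0 ⌊(Q : ℝ)⌋₊ with IsPrimePow d, f d := by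
    rw [Nat.floor_natCast]
    have : Icc 1 Q = Ioc 0 Q := by ext; simp [Nat.succ_le_iff]
    rw [this, sum_filter]
    apply sum_congr rfl
    intro d _
    split_ifs with h
    · rfl
    · rw [hf]
      simp only
      rw [ArithmeticFunction.vonMangoldt_eq_zero_iff.2 h, zero_div]
  rw [e1, Chebyshev.sum_PrimePow_eq_sum_sum f (Nat.cast_nonneg Q)]
  set K := ⌊Real.log Q / Real.log 2⌋₊ with hK
  have e2 : ∀ k ∈ Icc 1 K, ∑ p ∈ Ioc 0 ⌊(Q : ℝ) ^ ((1 : ℝ) / k)⌋₊ with p.Prime, f (p ^ k) ≤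
      ∑ p ∈ PP Q, Real.log p / ((p : ℝ) - 1) * (1 / (p : ℝ)) ^ (k - 1) := by
    intro k hk
    rw [mem_Icc] at hk
    have hsub : (Ioc 0 ⌊(Q : ℝ) ^ ((1 : ℝ) / k)⌋₊).filter Nat.Prime ⊆ PP Q := by
      intro p hp
      rw [mem_filter, mem_Ioc] at hp
      rw [mem_filter, mem_Icc]
      refine ⟨⟨hp.1.1, hp.1.2.trans ?_⟩, hp.2⟩
      have hQ1 : (1 : ℝ) ≤ Q := by exact_mod_cast hQ
      have : (Q : ℝ) ^ ((1 : ℝ) / k) ≤ Q := by
        calc (Q : ℝ) ^ ((1 : ℝ) / k) ≤ (Q : ℝ) ^ (1 : ℝ) := by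
              apply Real.rpow_le_rpow_of_exponent_le hQ1
              rw [div_le_one (by exact_mod_cast (by omega : 0 < k))]
              exact_mod_cast hk.1
          _ = Q := Real.rpow_one _
      calc ⌊(Q : ℝ) ^ ((1 : ℝ) / k)⌋₊ ≤ ⌊(Q : ℝ)⌋₊ := Nat.floor_le_floor this
        _ = Q := Nat.floor_natCast Q
    refine (sum_le_sum_of_subset_of_nonneg hsub fun p _ _ => hf0 _).trans (le_of_eq ?_)
    apply sum_congr rfl
    intro p hp
    rw [mem_filter] at hp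
    exact vM_pow p k hp.2 hk.1
  refine (sum_le_sum e2).trans ?_
  rw [sum_comm]
  have e3 : ∀ p ∈ PP Q, ∑ k ∈ Icc 1 K, Real.log p / ((p : ℝ) - 1) * (1 / (p : ℝ)) ^ (k - 1) ≤
      Real.log p / p + 3 * (Real.log p / (p * (p - 1))) := by
    intro p hp
    rw [mem_filter] at hp
    have h2 : (2 : ℝ) ≤ p := by exact_mod_cast hp.2.two_le
    have hp0 : (0 : ℝ) < p := by linarith
    have hp1 : (0 : ℝ) < (p : ℝ) - 1 := by linarith
    have hlog : 0 ≤ Real.log p := Real.log_nonneg (by linarith)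
    rw [← mul_sum]
    have h3 := geom_le (1 / (p : ℝ)) (by positivity) (by
      rw [div_lt_one hp0]; linarith) K
    have h4 : 1 / (1 - 1 / (p : ℝ)) = p / ((p : ℝ) - 1) := by field_simp
    rw [h4] at h3
    calc Real.log p / ((p : ℝ) - 1) * ∑ k ∈ Icc 1 K, (1 / (p : ℝ)) ^ (k - 1) ≤
          Real.log p / ((p : ℝ) - 1) * (p / ((p : ℝ) - 1)) := by gcongr
      _ = Real.log p * (p / ((p : ℝ) - 1) ^ 2) := by field_simp
      _ ≤ Real.log p * (1 / p + 3 / (p * (p - 1))) := by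
          apply mul_le_mul_of_nonneg_left _ hlog
          rw [div_add_div _ _ hp0.ne' (by positivity), div_le_div_iff₀ (by positivity) (by positivity)]
          have h5 : 0 < (p : ℝ) * ((p : ℝ) - 1) := by positivity
          nlinarith [mul_pos h5 hp0, mul_pos h5 hp1, mul_nonneg (mul_nonneg hp0.le hp0.le) (mul_nonneg hp1.le (sub_nonneg.2 h2))]
      _ = Real.log p / p + 3 * (Real.log p / (p * (p - 1))) := by ring
  refine (sum_le_sum e3).trans ?_
  rw [sum_add_distrib, ← mul_sum]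
  have h5 := (abs_le.1 (hC1 Q hQ)).2
  have h6 := hC2 Q
  have h7 : C1 ≤ max C1 0 := le_max_left _ _
  have h8 : ∑ p ∈ PP Q, Real.log p / p ≤ Real.log Q + C1 := by
    have : ∑ p ∈ PP Q, Real.log p / p = ∑ p ∈ (Finset.Icc 1 Q).filter Nat.Prime, Real.log p / p := rfl
    rw [this]
    linarith
  linarith

end Pool.Agent.H441R4.GB
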