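import Pool.Agent.H441R4.GB.Mert
import Pool.Agent.H441R4.EH.Least
import Pool.Agent.Results.MP_a78e8f_nt.IntegerResiduesAllLevels

/-! Large prime factors of `p + a` for all but few shifts `a`. -/

set_option autoImplicit false

open Finset Filter

namespace Pool.Agent.H441R4.GBP

open Pool.Agent.Results.MP_a78e8f_nt.IntegerResiduesAllLevels (primePiAP primePi maxErr T)

/-- the good primes -/
noncomputable def GG (x a S : ℕ) (z : ℝ) : Finset ℕ := by
  classical
  exact (Icc 1 x).filter (fun p => p.Prime ∧ ¬ p ∣ a ∧ z ≤ (p : ℝ) ∧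
    ∀ s ∈ Ioc S (2 * x), ¬ s ^ 2 ∣ p + a)

lemma mem_GG {x a S : ℕ} {z : ℝ} {p : ℕ} : p ∈ GG x a S z ↔
    (1 ≤ p ∧ p ≤ x) ∧ p.Prime ∧ ¬ p ∣ a ∧ z ≤ (p : ℝ) ∧
      ∀ s ∈ Ioc S (2 * x), ¬ s ^ 2 ∣ p + a := by
  classical
  unfold GG
  rw [mem_filter, mem_Icc]

/-- almost all primes are good -/
lemma card_GG (x a S : ℕ) (ha : 1 ≤ a) (hax : a ≤ x) (hS : 1 ≤ S) (hSx : S ≤ 2 * x) (z : ℝ)
    (hz : 0 ≤ z) :
    (primePi x : ℝ) ≤ ((GG x a S z).card : ℝ) + 2 * Real.log x + (z + 1) + 2 * x / S := by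
  classical
  have hx0 : 0 < x := by omega
  set A1 := a.primeFactors with hA1
  set A2 := (Icc 1 x).filter (fun p : ℕ => (p : ℝ) < z) with hA2
  set A3 := (Icc 1 x).filter (fun p => ∃ s ∈ Ioc S (2 * x), s ^ 2 ∣ p + a) with hA3
  have hsub : (Icc 1 x).filter (fun p : ℕ => p.Prime) ⊆ ((GG x a S z ∪ A1) ∪ A2) ∪ A3 := by
    intro p hp
    rw [mem_filter, mem_Icc] at hp
    by_cases h1 : p ∣ a
    · simp only [mem_union]
      left; left; right
      rw [hA1, Nat.mem_primeFactors]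
      exact ⟨hp.2, h1, by omega⟩
    · by_cases h2 : (p : ℝ) < z
      · simp only [mem_union]
        left; right
        rw [hA2, mem_filter, mem_Icc]
        exact ⟨hp.1, h2⟩
      · by_cases h3 : ∃ s ∈ Ioc S (2 * x), s ^ 2 ∣ p + a
        · simp only [mem_union]
          right
          rw [hA3, mem_filter, mem_Icc]
          exact ⟨hp.1, h3⟩
        · simp only [mem_union]
          left; left; left
          rw [mem_GG]
          push Not at h3
          exact ⟨hp.1, hp.2, h1, not_lt.1 h2, h3⟩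
  have h1 : (primePi x : ℝ) ≤ ((GG x a S z).card : ℝ) + A1.card + A2.card + A3.card := by
    have h2 : primePi x ≤ (GG x a S z).card + A1.card + A2.card + A3.card := by
      unfold primePi
      refine (card_le_card hsub).trans ?_
      refine (card_union_le _ _).trans ?_
      gcongr
      refine (card_union_le _ _).trans ?_
      gcongr
      exact card_union_le _ _
    exact_mod_cast h2
  have c1 : (A1.card : ℝ) ≤ 2 * Real.log x := by
    have h3 : 2 ^ A1.card ≤ a := by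
      calc 2 ^ A1.card ≤ ∏ p ∈ a.primeFactors, p :=
            pow_card_le_prod _ _ _ (fun p hp => (Nat.prime_of_mem_primeFactors hp).two_le)
        _ ≤ a := Nat.le_of_dvd (by omega) (Nat.prod_primeFactors_dvd a)
    have h5 : ((2 : ℝ) ^ A1.card) ≤ x := by exact_mod_cast h3.trans hax
    have h6 := Real.log_le_log (by positivity) h5
    rw [Real.log_pow] at h6
    have h7 := Real.log_two_gt_d9
    have h8 : (0 : ℝ) ≤ A1.card := by positivity
    nlinarith
  have c2 : (A2.card : ℝ) ≤ z + 1 := by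
    have h3 : A2.card ≤ (range ⌈z⌉₊).card := by
      apply card_le_card
      intro p hp
      rw [hA2, mem_filter, mem_Icc] at hp
      rw [mem_range]
      exact Nat.lt_ceil.2 hp.2
    rw [card_range] at h3
    have h4 := (Nat.ceil_lt_add_one hz).le
    have h5 : (A2.card : ℝ) ≤ (⌈z⌉₊ : ℝ) := by exact_mod_cast h3
    linarith
  have c3 : (A3.card : ℝ) ≤ 2 * x / S := by
    have hSr : (0 : ℝ) < S := by exact_mod_cast hS
    have h3 : A3.card ≤ ((Ioc S (2 * x)).biUnion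
        (fun s => (Icc 1 (2 * x)).filter (fun m => s ^ 2 ∣ m))).card := by
      apply card_le_card_of_injOn (fun p => p + a)
      · intro p hp
        rw [hA3, mem_coe, mem_filter, mem_Icc] at hp
        obtain ⟨h4, s, hs, hs2⟩ := hp
        rw [mem_coe, mem_biUnion]
        refine ⟨s, hs, ?_⟩
        simp only [mem_filter, mem_Icc]
        exact ⟨⟨by omega, by omega⟩, hs2⟩
      · intro p hp q hq hpq
        simp only at hpq
        omega
    have h4 : (A3.card : ℝ) ≤ ∑ s ∈ Ioc S (2 * x), (2 * x : ℝ) * ((s : ℝ) ^ 2)⁻¹ := by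
      have h5 : (A3.card : ℝ) ≤ ∑ s ∈ Ioc S (2 * x),
          (((Icc 1 (2 * x)).filter (fun m => s ^ 2 ∣ m)).card : ℝ) := by
        exact_mod_cast h3.trans card_biUnion_le
      refine h5.trans (sum_le_sum fun s hs => ?_)
      rw [mem_Ioc] at hs
      have hs0 : (0 : ℝ) < s := by exact_mod_cast (by omega : 0 < s)
      have h6 : ((Icc 1 (2 * x)).filter (fun m => s ^ 2 ∣ m)).card = 2 * x / s ^ 2 := by
        rw [← Nat.Ioc_filter_dvd_card_eq_div (2 * x) (s ^ 2)]
        congr 1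
      rw [h6]
      have h7 : ((2 * x / s ^ 2 : ℕ) : ℝ) ≤ ((2 * x : ℕ) : ℝ) / ((s ^ 2 : ℕ) : ℝ) := Nat.cast_div_le
      push_cast at h7
      rw [← div_eq_mul_inv]
      exact h7
    refine h4.trans ?_
    rw [← mul_sum]
    have h5 := sum_Ioc_inv_sq_le_sub (α := ℝ) (k := S) (n := 2 * x) (by omega) hSx
    have h6 : (0 : ℝ) ≤ ((2 * x : ℕ) : ℝ)⁻¹ := by positivity
    calc (2 * x : ℝ) * ∑ i ∈ Ioc S (2 * x), ((i : ℝ) ^ 2)⁻¹ ≤ 2 * x * (S : ℝ)⁻¹ := by
          apply mul_le_mul_of_nonneg_left _ (by positivity)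
          linarith
      _ = 2 * x / S := by rw [div_eq_mul_inv]
  linarith

open Classical in
/-- the primes `p ≤ x` such that `p + a` has a prime factor larger than `Q` -/
noncomputable def HH (x a Q : ℕ) : Finset ℕ :=
  (Icc 1 x).filter (fun p => p.Prime ∧ ∃ q : ℕ, q.Prime ∧ Q < q ∧ q ∣ p + a)

/-- the divisor sum over the good primes -/
lemma sum_GG (x a S Q : ℕ) (z : ℝ) (ha : 1 ≤ a) (hax : a ≤ x) (hSQ : S ^ 3 ≤ Q) (hQx : Q ≤ x) :
    ∑ p ∈ GG x a S z, Real.log ((p + a : ℕ) : ℝ) ≤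
      (primePi x : ℝ) * ∑ d ∈ Icc 1 Q, ArithmeticFunction.vonMangoldt d / (Nat.totient d : ℝ) +
        Real.log x * T x Q (-(a : ℤ)) + (HH x a Q).card * Real.log ((2 * x : ℕ) : ℝ) := by
  classical
  set F := (Icc 1 Q).filter (fun d : ℕ => Int.gcd (-(a : ℤ)) d = 1) with hF
  have h1 : ∀ p ∈ GG x a S z, Real.log ((p + a : ℕ) : ℝ) ≤
      (∑ d ∈ F, if d ∣ p + a then ArithmeticFunction.vonMangoldt d else 0) +
        (if p ∈ HH x a Q then Real.log ((2 * x : ℕ) : ℝ) else 0) := by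
    intro p hp
    rw [mem_GG] at hp
    obtain ⟨hp1, hpp, hpd, _, hsq⟩ := hp
    have hs0 : 0 ≤ ∑ d ∈ F, (if d ∣ p + a then ArithmeticFunction.vonMangoldt d else 0) := by
      apply sum_nonneg
      intro d _
      split_ifs
      · exact ArithmeticFunction.vonMangoldt_nonneg
      · exact le_rfl
    by_cases hH : p ∈ HH x a Q
    · rw [if_pos hH]
      have h2 : Real.log ((p + a : ℕ) : ℝ) ≤ Real.log ((2 * x : ℕ) : ℝ) := by
        apply Real.log_le_log
        · exact_mod_cast (by omega : 0 < p + a)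
        · exact_mod_cast (by omega : p + a ≤ 2 * x)
      linarith
    rw [if_neg hH, add_zero]
    have hno : ∀ q : ℕ, q.Prime → q ∣ p + a → q ≤ Q := by
      intro q hq hqd
      by_contra hcon
      apply hH
      unfold HH
      rw [mem_filter, mem_Icc]
      exact ⟨hp1, hpp, q, hq, by omega, hqd⟩
    rw [← ArithmeticFunction.vonMangoldt_sum, ← sum_filter]
    have h2 : ∑ d ∈ (p + a).divisors, ArithmeticFunction.vonMangoldt d =
        ∑ d ∈ (p + a).divisors.filter (fun d => ArithmeticFunction.vonMangoldt d ≠ 0),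
          ArithmeticFunction.vonMangoldt d := by
      rw [sum_filter_ne_zero]
    rw [h2]
    apply sum_le_sum_of_subset_of_nonneg
    · intro d hd
      rw [mem_filter, Nat.mem_divisors] at hd
      obtain ⟨⟨hd1, hd2⟩, hd3⟩ := hd
      have hpw := ArithmeticFunction.vonMangoldt_ne_zero_iff.1 hd3
      rw [isPrimePow_nat_iff] at hpw
      obtain ⟨r, k, hr, hk, hrk⟩ := hpw
      have hrd : r ∣ p + a := (dvd_pow_self r hk.ne').trans (hrk ▸ hd1)
      rw [mem_filter, hF, mem_filter, mem_Icc]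
      refine ⟨⟨⟨?_, ?_⟩, ?_⟩, hd1⟩
      · exact Nat.pos_of_dvd_of_pos hd1 (by omega)
      · rcases Nat.lt_or_ge k 2 with h3 | h3
        · have : k = 1 := by omega
          rw [this, pow_one] at hrk
          rw [← hrk]
          exact hno r hr hrd
        · set j := k / 2 with hj
          have hj1 : 1 ≤ j := by omega
          have h4 : (r ^ j) ^ 2 ∣ p + a := by
            rw [← pow_mul]
            exact (pow_dvd_pow r (by omega)).trans (hrk ▸ hd1)
          have h5 : r ^ j ≤ S := by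
            by_contra hcon
            have h6 : r ^ j ≤ 2 * x := by
              have h7 : (r ^ j) ^ 2 ≤ p + a := Nat.le_of_dvd (by omega) h4
              have h8 : r ^ j ≤ (r ^ j) ^ 2 := Nat.le_self_pow (by norm_num) _
              omega
            exact hsq (r ^ j) (by rw [mem_Ioc]; omega) h4
          rw [← hrk]
          calc r ^ k ≤ r ^ (j * 3) := Nat.pow_le_pow_right hr.pos (by omega)
            _ = (r ^ j) ^ 3 := by rw [pow_mul]
            _ ≤ S ^ 3 := Nat.pow_le_pow_left h5 3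
            _ ≤ Q := hSQ
      · have hcop : Nat.Coprime a d := by
          rw [← hrk]
          apply Nat.Coprime.pow_right
          rw [Nat.coprime_comm, Nat.Prime.coprime_iff_not_dvd hr]
          intro hra
          have h3 : r ∣ p := (Nat.dvd_add_left hra).1 hrd
          have h4 : r = p := (Nat.prime_dvd_prime_iff_eq hr hpp).1 h3
          exact hpd (h4 ▸ hra)
        have : Int.gcd (-(a : ℤ)) (d : ℤ) = Nat.gcd a d := by
          rw [Int.neg_gcd]
          exact Int.gcd_natCast_natCast a d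
        rw [this]
        exact hcop
    · intro d _ _
      exact ArithmeticFunction.vonMangoldt_nonneg
  refine (sum_le_sum h1).trans ?_
  rw [sum_add_distrib, sum_comm]
  have h2 : ∀ d ∈ F, ∑ p ∈ GG x a S z,
      (if d ∣ p + a then ArithmeticFunction.vonMangoldt d else 0) ≤
      (primePi x : ℝ) * (ArithmeticFunction.vonMangoldt d / (Nat.totient d : ℝ)) +
        Real.log x * maxErr x d (-(a : ℤ)) := by
    intro d hd
    rw [hF, mem_filter, mem_Icc] at hd
    rw [← sum_filter, sum_const, nsmul_eq_mul]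
    have h3 : ((GG x a S z).filter (fun p => d ∣ p + a)).card ≤ primePiAP x d (-(a : ℤ)) := by
      unfold primePiAP
      apply card_le_card
      intro p hp
      rw [mem_filter, mem_GG] at hp
      rw [mem_filter, mem_Icc]
      refine ⟨hp.1.1, hp.1.2.1, ?_⟩
      rw [Int.modEq_iff_dvd]
      have h4 : (d : ℤ) ∣ ((p + a : ℕ) : ℤ) := by exact_mod_cast hp.2
      have h5 : -(a : ℤ) - p = -((p + a : ℕ) : ℤ) := by push_cast; ring
      rw [h5]
      exact (dvd_neg).2 h4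
    have h4 : (primePiAP x d (-(a : ℤ)) : ℝ) ≤
        (primePi x : ℝ) / (Nat.totient d : ℝ) + maxErr x d (-(a : ℤ)) := by
      have h5 : |(primePiAP x d (-(a : ℤ)) : ℝ) - (primePi x : ℝ) / (Nat.totient d : ℝ)| ≤
          maxErr x d (-(a : ℤ)) :=
        le_sup' (f := fun y => |(primePiAP y d (-(a : ℤ)) : ℝ) -
          (primePi y : ℝ) / (Nat.totient d : ℝ)|) (mem_range.2 (Nat.lt_succ_self x))
      have := (abs_le.1 h5).2
      linarith
    have h5 : (0 : ℝ) ≤ ArithmeticFunction.vonMangoldt d := ArithmeticFunction.vonMangoldt_nonneg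
    have h6 : ArithmeticFunction.vonMangoldt d ≤ Real.log x := by
      refine ArithmeticFunction.vonMangoldt_le_log.trans ?_
      apply Real.log_le_log
      · exact_mod_cast hd.1.1
      · exact_mod_cast hd.1.2.trans hQx
    have h7 : 0 ≤ maxErr x d (-(a : ℤ)) := by
      refine le_trans (abs_nonneg _) (le_sup' (f := fun y => |(primePiAP y d (-(a : ℤ)) : ℝ) -
        (primePi y : ℝ) / (Nat.totient d : ℝ)|) (mem_range.2 (Nat.lt_succ_self x)))
    calc (((GG x a S z).filter (fun p => d ∣ p + a)).card : ℝ) *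
          ArithmeticFunction.vonMangoldt d ≤
          ((primePi x : ℝ) / (Nat.totient d : ℝ) + maxErr x d (-(a : ℤ))) *
            ArithmeticFunction.vonMangoldt d := by
          apply mul_le_mul_of_nonneg_right _ h5
          refine le_trans ?_ h4
          exact_mod_cast h3
      _ = (primePi x : ℝ) * (ArithmeticFunction.vonMangoldt d / (Nat.totient d : ℝ)) +
            ArithmeticFunction.vonMangoldt d * maxErr x d (-(a : ℤ)) := by ring
      _ ≤ _ := by gcongr
  have h3 : ∑ d ∈ F, ArithmeticFunction.vonMangoldt d / (Nat.totient d : ℝ) ≤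
      ∑ d ∈ Icc 1 Q, ArithmeticFunction.vonMangoldt d / (Nat.totient d : ℝ) :=
    sum_le_sum_of_subset_of_nonneg (filter_subset _ _) fun d _ _ =>
      div_nonneg ArithmeticFunction.vonMangoldt_nonneg (Nat.cast_nonneg _)
  have h4 : ∑ d ∈ F, maxErr x d (-(a : ℤ)) = T x Q (-(a : ℤ)) := rfl
  have h5 : ∑ p ∈ GG x a S z, (if p ∈ HH x a Q then Real.log ((2 * x : ℕ) : ℝ) else 0) ≤
      (HH x a Q).card * Real.log ((2 * x : ℕ) : ℝ) := by
    rw [← sum_filter, sum_const, nsmul_eq_mul]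
    apply mul_le_mul_of_nonneg_right _ (Real.log_natCast_nonneg _)
    have : (GG x a S z).filter (fun p => p ∈ HH x a Q) ⊆ HH x a Q := by
      intro p hp
      exact (mem_filter.1 hp).2
    exact_mod_cast card_le_card this
  have h6 := sum_le_sum h2
  rw [sum_add_distrib, ← mul_sum, ← mul_sum, h4] at h6
  have h7 : (primePi x : ℝ) * ∑ d ∈ F, ArithmeticFunction.vonMangoldt d / (Nat.totient d : ℝ) ≤
      (primePi x : ℝ) * ∑ d ∈ Icc 1 Q, ArithmeticFunction.vonMangoldt d / (Nat.totient d : ℝ) := by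
    gcongr
  linarith

theorem key (ε : ℝ) (hε : 0 < ε) (hε1 : ε < 1) : ∃ x0 : ℕ, ∀ x : ℕ, x0 ≤ x → ∀ a : ℕ, 1 ≤ a →
    a ≤ x → T x ⌊(x : ℝ) ^ (1 - ε)⌋₊ (-(a : ℤ)) ≤ (x : ℝ) / Real.log x ^ (2 : ℝ) →
    ε / 8 * (primePi x : ℝ) ≤ ((HH x a ⌊(x : ℝ) ^ (1 - ε)⌋₊).card : ℝ) := by
  obtain ⟨C1, hC1, hM⟩ := Pool.Agent.H441R4.GB.sum_vM_tot
  have e1 : ∀ᶠ X : ℝ in atTop, 8 * Real.log X ^ 6 ≤ X ^ (1 - ε) :=
    Pool.Agent.H398R2.BV.ev_log 8 6 (1 - ε) (by linarith)
  have e2 : ∀ᶠ X : ℝ in atTop, Real.log (Real.log X) ≤ (ε / 8) * Real.log X := by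
    have h1 := (Real.isLittleO_log_id_atTop.bound (show (0:ℝ) < ε / 8 by positivity))
    have h2 := Real.tendsto_log_atTop.eventually h1
    have h3 := Real.tendsto_log_atTop.eventually (eventually_ge_atTop (1:ℝ))
    filter_upwards [h2, h3] with X h4 h5
    have h6 : 0 ≤ Real.log (Real.log X) := Real.log_nonneg h5
    simp only [id] at h4
    rw [Real.norm_eq_abs, Real.norm_eq_abs, abs_of_nonneg h6,
      abs_of_nonneg (by linarith : (0:ℝ) ≤ Real.log X)] at h4
    exact h4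
  have e3 : ∀ᶠ X : ℝ in atTop, 4 * (1 + C1) / ε + 1000 / ε + 1 ≤ Real.log X :=
    Real.tendsto_log_atTop.eventually (eventually_ge_atTop _)
  have evN := tendsto_natCast_atTop_atTop (R := ℝ) |>.eventually
    ((e1.and (e2.and e3)).and (eventually_ge_atTop (3:ℝ)))
  obtain ⟨x0, hx0⟩ := eventually_atTop.1 evN
  refine ⟨x0, fun x hx a ha hax hT => ?_⟩
  obtain ⟨⟨w1, w2, w3⟩, w4⟩ := hx0 x hx
  set L := Real.log x with hL
  have hx3 : 3 ≤ x := by exact_mod_cast w4
  have hX0 : (0:ℝ) < x := by linarith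
  have h4e : 0 ≤ 4 * (1 + C1) / ε := by positivity
  have h100 : 0 < 1000 / ε := by positivity
  have hL1 : 1 ≤ L := by linarith
  have hL0 : 0 < L := by linarith
  have hLa : 4 * (1 + C1) ≤ ε * L := by
    have h1 : 4 * (1 + C1) / ε ≤ L := by linarith
    rw [div_le_iff₀ hε] at h1
    linarith
  have hLb : 1000 ≤ ε * L := by
    have h1 : 1000 / ε ≤ L := by linarith
    rw [div_le_iff₀ hε] at h1
    linarith
  have hx1 : (1:ℝ) ≤ x := by linarith
  have hpow : (x:ℝ) ^ (1 - ε) ≤ x := by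
    calc (x:ℝ) ^ (1 - ε) ≤ (x:ℝ) ^ (1:ℝ) := Real.rpow_le_rpow_of_exponent_le hx1 (by linarith)
      _ = x := Real.rpow_one _
  have hpow0 : 0 ≤ (x:ℝ) ^ (1 - ε) := by positivity
  set Q := ⌊(x : ℝ) ^ (1 - ε)⌋₊ with hQ
  set S := ⌈L ^ 2⌉₊ with hS
  have hL2 : 1 ≤ L ^ 2 := one_le_pow₀ hL1
  have hS1 : 1 ≤ S := Nat.one_le_ceil_iff.2 (by linarith)
  have hSL : L ^ 2 ≤ S := Nat.le_ceil _
  have hSL2 : (S:ℝ) ≤ 2 * L ^ 2 := by
    have := (Nat.ceil_lt_add_one (show 0 ≤ L ^ 2 by positivity)).le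
    linarith
  have hSQ : S ^ 3 ≤ Q := by
    apply Nat.le_floor
    push_cast
    calc (S:ℝ) ^ 3 ≤ (2 * L ^ 2) ^ 3 := by gcongr
      _ = 8 * L ^ 6 := by ring
      _ ≤ _ := w1
  have hQx : Q ≤ x := by
    calc Q ≤ ⌊(x:ℝ)⌋₊ := Nat.floor_le_floor hpow
      _ = x := Nat.floor_natCast x
  have hL6 : L ^ 2 ≤ L ^ 6 := pow_le_pow_right₀ hL1 (by norm_num)
  have hL36 : L ^ 3 ≤ L ^ 6 := pow_le_pow_right₀ hL1 (by norm_num)
  have hSx : S ≤ 2 * x := by
    have h1 : (S:ℝ) ≤ 2 * x := by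
      have : 8 * L ^ 6 ≤ x := w1.trans hpow
      linarith
    exact_mod_cast h1
  set z : ℝ := x / L ^ 2 with hz
  have hz0 : 0 < z := by positivity
  have hlogz : Real.log z = L - 2 * Real.log L := by
    rw [hz, Real.log_div hX0.ne' (by positivity), Real.log_pow, ← hL]
    norm_num
  have hloglog : 0 ≤ Real.log L := Real.log_nonneg hL1
  have hcard := card_GG x a S ha hax hS1 hSx z hz0.le
  have hsum := sum_GG x a S Q z ha hax hSQ hQx
  have hQ1 : 1 ≤ Q := le_trans (Nat.one_le_pow _ _ hS1) hSQ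
  have hMQ := hM Q hQ1
  have hlogQ : Real.log Q ≤ (1 - ε) * L := by
    have h1 : (Q:ℝ) ≤ (x:ℝ) ^ (1 - ε) := Nat.floor_le hpow0
    have h2 : (0:ℝ) < Q := by exact_mod_cast hQ1
    have h3 := Real.log_le_log h2 h1
    rwa [Real.log_rpow hX0] at h3
  have hlog2x : Real.log ((2 * x : ℕ) : ℝ) ≤ 2 * L := by
    push_cast
    rw [Real.log_mul (by norm_num) hX0.ne']
    have h1 : Real.log 2 ≤ L := Real.log_le_log (by norm_num) (by linarith)
    linarith
  set P : ℝ := (primePi x : ℝ) with hP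
  have hP0 : 0 ≤ P := Nat.cast_nonneg _
  set R : ℝ := 2 * L + 1 + 3 * x / L ^ 2 with hR
  have hGR : P - R ≤ ((GG x a S z).card : ℝ) := by
    have h2 : 2 * (x:ℝ) / S ≤ 2 * x / L ^ 2 := by
      apply div_le_div_of_nonneg_left (by positivity) (by positivity) hSL
    have h3 : 3 * (x:ℝ) / L ^ 2 = z + 2 * x / L ^ 2 := by rw [hz]; ring
    rw [hR, h3]
    linarith
  have hlow : ((GG x a S z).card : ℝ) * Real.log z ≤
      ∑ p ∈ GG x a S z, Real.log ((p + a : ℕ) : ℝ) := by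
    rw [← nsmul_eq_mul, ← sum_const]
    apply sum_le_sum
    intro p hp
    rw [mem_GG] at hp
    apply Real.log_le_log hz0
    push_cast
    have : (0:ℝ) ≤ a := Nat.cast_nonneg _
    linarith [hp.2.2.2.1]
  have hεL : ε * L ≤ L := by nlinarith
  have hW0 : 0 ≤ Real.log z := by
    have : (ε / 8) * L ≤ L / 8 := by nlinarith
    rw [hlogz]
    linarith
  have hWL : Real.log z ≤ L := by rw [hlogz]; linarith
  have hR0 : 0 ≤ R := by positivity
  set H : ℝ := ((HH x a Q).card : ℝ) with hH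
  have hH0 : 0 ≤ H := Nat.cast_nonneg _
  have hT' : L * T x Q (-(a : ℤ)) ≤ x / L := by
    have h1 : T x Q (-(a : ℤ)) ≤ x / L ^ 2 := by
      refine hT.trans (le_of_eq ?_)
      rw [show (2:ℝ) = ((2:ℕ):ℝ) by norm_num, Real.rpow_natCast]
    calc L * T x Q (-(a : ℤ)) ≤ L * (x / L ^ 2) := by gcongr
      _ = x / L := by field_simp
  have h1 : (P - R) * Real.log z ≤ P * ((1 - ε) * L + C1) + x / L + H * (2 * L) := by
    calc (P - R) * Real.log z ≤ ((GG x a S z).card : ℝ) * Real.log z := by gcongr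
      _ ≤ _ := hlow
      _ ≤ _ := hsum
      _ ≤ P * ((1 - ε) * L + C1) + x / L + H * (2 * L) := by
          gcongr
          linarith
  have h2 : R * Real.log z ≤ R * L := by gcongr
  have h3 : P * (ε * L / 2) ≤ P * (Real.log z - (1 - ε) * L - C1) := by
    apply mul_le_mul_of_nonneg_left _ hP0
    rw [hlogz]
    nlinarith
  have h4 : P * (ε * L / 2) ≤ R * L + x / L + H * (2 * L) := by nlinarith
  have h5 : (x:ℝ) ≤ 5 * P * L := by
    have h6 := Pool.Agent.H441R4.EH.pin_ge x hx3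
    have h7 : Pool.Agent.H441R4.EH.pin x = P := rfl
    rw [h7] at h6
    exact h6
  have h7 : R * L ≤ 4 * x / L := by
    rw [hR, le_div_iff₀ hL0]
    have h8 : (2 * L + 1 + 3 * (x:ℝ) / L ^ 2) * L * L = 2 * L ^ 3 + L ^ 2 + 3 * x := by
      field_simp
    rw [h8]
    have h9 : 8 * L ^ 6 ≤ x := w1.trans hpow
    linarith
  have h8 : 5 * (x:ℝ) / L ≤ 25 * P := by
    rw [div_le_iff₀ hL0]
    linarith
  have h9 : P * (ε * L / 2) ≤ 25 * P + H * (2 * L) := by
    have : 4 * (x:ℝ) / L + x / L = 5 * x / L := by ring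
    linarith
  have h10 : 25 * P ≤ P * (ε * L / 4) := by nlinarith
  have h11 : P * (ε * L / 4) ≤ H * (2 * L) := by
    have : P * (ε * L / 2) = P * (ε * L / 4) + P * (ε * L / 4) := by ring
    linarith
  have h12 : ε / 8 * P * (2 * L) ≤ H * (2 * L) := by
    have : ε / 8 * P * (2 * L) = P * (ε * L / 4) := by ring
    linarith
  exact le_of_mul_le_mul_right h12 (by positivity)

open Classical in
/-- the primes `p ≤ N` such that `p + a = m q` with a prime `q` and `1 ≤ m ≤ 2 N^ε` -/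
noncomputable def goodPrimes (ε : ℝ) (N a : ℕ) : Finset ℕ :=
  (Icc 1 N).filter (fun p => p.Prime ∧ ∃ m q : ℕ, q.Prime ∧ 1 ≤ m ∧
    (m : ℝ) ≤ 2 * (N : ℝ) ^ ε ∧ p + a = m * q)

lemma HH_sub (ε : ℝ) (N a : ℕ) (ha : 1 ≤ a) (haN : a ≤ N) :
    HH N a ⌊(N : ℝ) ^ (1 - ε)⌋₊ ⊆ goodPrimes ε N a := by
  classical
  intro p hp
  unfold HH at hp
  rw [mem_filter, mem_Icc] at hp
  obtain ⟨hp1, hpp, q, hq, hQq, hqd⟩ := hp
  unfold goodPrimes
  rw [mem_filter, mem_Icc]
  refine ⟨hp1, hpp, ?_⟩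
  obtain ⟨m, hm⟩ := hqd
  have hm1 : 1 ≤ m := by
    rcases Nat.eq_zero_or_pos m with h | h
    · rw [h] at hm; omega
    · exact h
  refine ⟨m, q, hq, hm1, ?_, by rw [hm, Nat.mul_comm]⟩
  have hNr : (0:ℝ) < N := by exact_mod_cast (by omega : 0 < N)
  have h3 : (N:ℝ) ^ (1 - ε) < q := Nat.lt_of_floor_lt hQq
  have h4 : (m:ℝ) * q ≤ 2 * N := by
    have : m * q ≤ 2 * N := by
      rw [Nat.mul_comm, ← hm]; omega
    exact_mod_cast this
  have h5 : (0:ℝ) < (N:ℝ) ^ (1 - ε) := Real.rpow_pos_of_pos hNr _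
  have h6 : (m:ℝ) * (N:ℝ) ^ (1 - ε) ≤ 2 * N := by
    refine le_trans ?_ h4
    gcongr
  have h7 : (N:ℝ) = (N:ℝ) ^ ε * (N:ℝ) ^ (1 - ε) := by
    rw [← Real.rpow_add hNr]
    norm_num
  have h8 : (m:ℝ) * (N:ℝ) ^ (1 - ε) ≤ 2 * (N:ℝ) ^ ε * (N:ℝ) ^ (1 - ε) := by
    rw [mul_assoc, ← h7]; exact h6
  exact le_of_mul_le_mul_right h8 h5

theorem count (ε : ℝ) (hε : 0 < ε) (hε1 : ε ≤ 1 / 2) : ∃ B C : ℝ, ∀ N : ℕ, 3 ≤ N →
    (((Icc 1 N).filter (fun a : ℕ => ((goodPrimes ε N a).card : ℝ) <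
      ε / 8 * (primePi N : ℝ))).card : ℝ) ≤ C * (N : ℝ) ^ (1 - 2 * ε) * Real.log N ^ B := by
  classical
  obtain ⟨x0, hkey⟩ := key ε hε (by linarith)
  obtain ⟨-, B0, C0, hcnt⟩ :=
    Pool.Agent.Results.MP_a78e8f_nt.IntegerResiduesAllLevels.result ε hε 1 2
  set B := max B0 0 with hB
  set C := max C0 0 with hC
  have hB0 : 0 ≤ B := le_max_right _ _
  have hC0 : 0 ≤ C := le_max_right _ _
  refine ⟨B, C + x0, fun N hN => ?_⟩
  set E := (Icc 1 N).filter (fun a : ℕ => ((goodPrimes ε N a).card : ℝ) <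
      ε / 8 * (primePi N : ℝ)) with hE
  have hNr : (3:ℝ) ≤ N := by exact_mod_cast hN
  have hN0 : (0:ℝ) < N := by linarith
  have hlogN : 1 ≤ Real.log N := Pool.Agent.H441R3.BV.one_le_log hN
  have hlogB : 1 ≤ Real.log N ^ B := Real.one_le_rpow hlogN hB0
  have hNe : 1 ≤ (N:ℝ) ^ (1 - 2 * ε) := Real.one_le_rpow (by linarith) (by linarith)
  have hprod : 1 ≤ (N:ℝ) ^ (1 - 2 * ε) * Real.log N ^ B := by nlinarith
  have hprod0 : 0 ≤ (N:ℝ) ^ (1 - 2 * ε) * Real.log N ^ B := by linarith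
  rcases Nat.lt_or_ge N x0 with hlt | hge
  · have h1 : (E.card : ℝ) ≤ x0 := by
      have h2 : E.card ≤ N := by
        rw [hE]
        refine (card_filter_le _ _).trans ?_
        rw [Nat.card_Icc]; omega
      have h3 : E.card ≤ x0 := by omega
      exact_mod_cast h3
    calc (E.card : ℝ) ≤ x0 * 1 := by rw [mul_one]; exact h1
      _ ≤ (C + x0) * ((N:ℝ) ^ (1 - 2 * ε) * Real.log N ^ B) := by
          gcongr
          linarith
      _ = _ := by ring
  · set Q := ⌊(N : ℝ) ^ (1 - ε)⌋₊ with hQ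
    have hQle : (Q:ℝ) ≤ (N:ℝ) ^ (1 - ε) := Nat.floor_le (by positivity)
    have h1 := hcnt N (by omega) Q hQle
    have h2 : E.card ≤ ((Icc (-(N : ℤ) ^ 1) ((N : ℤ) ^ 1)).filter
        (fun a : ℤ => N / Real.log N ^ (2:ℝ) < T N Q a)).card := by
      apply card_le_card_of_injOn (fun n : ℕ => -(n : ℤ))
      · intro a ha
        rw [mem_coe, hE, mem_filter, mem_Icc] at ha
        obtain ⟨⟨ha1, ha2⟩, ha3⟩ := ha
        rw [mem_coe, mem_filter, mem_Icc]
        refine ⟨⟨?_, ?_⟩, ?_⟩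
        · show -(N : ℤ) ^ 1 ≤ -(a : ℤ)
          rw [pow_one]; omega
        · show -(a : ℤ) ≤ (N : ℤ) ^ 1
          rw [pow_one]; omega
        · by_contra hcon
          have h3 := hkey N hge a ha1 ha2 (not_lt.1 hcon)
          have h4 : ((HH N a Q).card : ℝ) ≤ ((goodPrimes ε N a).card : ℝ) := by
            exact_mod_cast card_le_card (HH_sub ε N a ha1 ha2)
          linarith
      · intro a _ b _ hab
        have hab' : -(a : ℤ) = -(b : ℤ) := hab
        have hab'' : (a : ℤ) = (b : ℤ) := neg_inj.1 hab'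
        exact_mod_cast hab''
    have h3 : (E.card : ℝ) ≤ C0 * ((Q : ℝ) ^ 2 / N) * Real.log N ^ B0 := by
      refine le_trans ?_ h1
      exact_mod_cast h2
    have h4 : (Q:ℝ) ^ 2 / N ≤ (N:ℝ) ^ (1 - 2 * ε) := by
      calc (Q:ℝ) ^ 2 / N ≤ ((N:ℝ) ^ (1 - ε)) ^ 2 / N := by gcongr
        _ = (N:ℝ) ^ (1 - 2 * ε) := by
            rw [← Real.rpow_natCast, ← Real.rpow_mul hN0.le, div_eq_mul_inv, ← Real.rpow_neg_one,
              ← Real.rpow_add hN0]
            congr 1
            push_cast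
            ring
    have h5 : Real.log N ^ B0 ≤ Real.log N ^ B :=
      Real.rpow_le_rpow_of_exponent_le hlogN (le_max_left _ _)
    calc (E.card : ℝ) ≤ C0 * ((Q : ℝ) ^ 2 / N) * Real.log N ^ B0 := h3
      _ ≤ C * (N:ℝ) ^ (1 - 2 * ε) * Real.log N ^ B := by
          have h6 : C0 ≤ C := le_max_left _ _
          gcongr
      _ = C * ((N:ℝ) ^ (1 - 2 * ε) * Real.log N ^ B) := by ring
      _ ≤ (C + x0) * ((N:ℝ) ^ (1 - 2 * ε) * Real.log N ^ B) := by
          apply mul_le_mul_of_nonneg_right _ hprod0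
          have : (0:ℝ) ≤ x0 := Nat.cast_nonneg _
          linarith
      _ = _ := by ring

end Pool.Agent.H441R4.GBP
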